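import Pool.Agent.HCO.Fin

/-!
# Under Martin's Maximum hereditarily c.o. compact spaces are hereditarily ordinals

Definitions (see `Pool/Agent/HCO/Defs.lean`): `IsCO` is the c.o. property, `MM` is Martin's Maximum,
for which see `SSP`, `Stat`, `Club`, `w1`, `DenseP`, `IsFilt`.
-/

set_option autoImplicit false

universe u

namespace Pool.Agent.Results.MP_5b5309_lc.HereditarilyOrdinal

open Pool.Agent.HCO

/-- Martin's Maximum implies: if every infinite closed subspace of the compact Hausdorff space `X` is
a c.o. space, then every nonempty closed subspace of `X` is homeomorphic to `α + 1` (the closed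
initial segment `Iic α` of the ordinals) for some ordinal `α`. -/
theorem result : MM.{u} → ∀ (X : Type u) [TopologicalSpace X] [CompactSpace X] [T2Space X],
    (∀ F : Set X, IsClosed F → F.Infinite → IsCO F) →
    ∀ F : Set X, IsClosed F → F.Nonempty → ∃ α : Ordinal.{u}, Nonempty (F ≃ₜ Set.Iic α) :=
  fin_Main

end Pool.Agent.Results.MP_5b5309_lc.HereditarilyOrdinal
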