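import Pool.Agent.HCO.ExistsIn

/-!
# The rank of a minimal counterexample (no axiom beyond ZFC)

Definitions (see `Pool/Agent/HCO/Defs.lean`): `IsCO` is the c.o. property, `der F d` is the `d`-th
Cantor-Bendixson derivative of the set `F`.
-/

set_option autoImplicit false

open Cardinal

universe u

namespace Pool.Agent.Results.MP_5b5309_lc.MinimalRank

open Pool.Agent.HCO

/-- If all infinite closed subspaces of the compact Hausdorff space `X` are c.o. spaces and the
nonempty closed subspace `F` is not homeomorphic to an ordinal `α + 1`, then `F` contains a closed `G`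
with the same property, of Cantor-Bendixson rank `r` (its `r`-th derivative is a point `x`) with
`ω < cf r = |r|`, such that all nonempty closed subspaces of `G` of smaller rank (or, more generally,
with `x` not in the `r`-th derivative) are homeomorphic to ordinals `α + 1`. -/
theorem result : ∀ (X : Type u) [TopologicalSpace X] [CompactSpace X] [T2Space X],
    (∀ F : Set X, IsClosed F → F.Infinite → IsCO F) →
    ∀ F : Set X, IsClosed F → F.Nonempty →
    (¬ ∃ α : Ordinal.{u}, Nonempty (F ≃ₜ Set.Iic α)) →
    ∃ (G : Set X) (r : Ordinal.{u}) (x : X), IsClosed G ∧ G ⊆ F ∧ der G r = {x} ∧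
      (¬ ∃ α : Ordinal.{u}, Nonempty (G ≃ₜ Set.Iic α)) ∧
      (∀ H ⊆ G, IsClosed H → H.Nonempty → x ∉ der H r →
        ∃ α : Ordinal.{u}, Nonempty (H ≃ₜ Set.Iic α)) ∧ ℵ₀ < r.cof ∧ r.cof = r.card :=
  fun X _ _ _ hco F hF hFn hFo => minimalRank X hco F hF hFn hFo

end Pool.Agent.Results.MP_5b5309_lc.MinimalRank
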